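import Mathlib

/-!
# Straight segments from an inner function to `CN*`

`H^∞` is the set of analytic functions in `Disk →ᵇ ℂ` (bounded continuous functions on the unit disk
with the sup norm). Known criterion: the segment from an inner function `u` to a function `f` in
`CN*` lies in `𝓘*` if `‖u - f‖ < 1`. We prove that products of inner functions with this property
behave well, too: if `u_i` are inner, `f_i` are in `CN*`, `‖u_i - f_i‖ < 1` and
`∑ arcsin ‖u_i - f_i‖ < π` (which holds for two factors), then the segment from `u = ∏ u_i` to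
`f = ∏ f_i` lies in the component of `𝓘*` which contains `u`, although `‖u - f‖` may be larger than
`1`.

Proof: on the circle `f_i / u_i` has an argument of at most `arcsin ‖u_i - f_i‖` in absolute value, so
the product stays away from the negative real axis.
-/

set_option autoImplicit false

open Filter Topology BoundedContinuousFunction ComplexConjugate

namespace Pool.Agent.Results.MP_9f8bec_an.ProductSegments

/-- The open unit disk. -/
abbrev Disk : Type := Metric.ball (0 : ℂ) 1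

/-- The bounded continuous function `f` on the disk is analytic, so `f` is in `H^∞`. -/
def IsAnalytic (f : Disk →ᵇ ℂ) : Prop :=
  ∃ F : ℂ → ℂ, DifferentiableOn ℂ F (Metric.ball 0 1) ∧ ∀ z : Disk, F z = f z

/-- The point `r e^{i θ}` of the disk (`0` if `|r| ≥ 1`). -/
noncomputable def pt (θ r : ℝ) : Disk :=
  if h : |r| < 1 then ⟨(r : ℂ) * Complex.exp (θ * Complex.I), by
    simpa [Complex.norm_exp_ofReal_mul_I] using h⟩ else ⟨0, by simp⟩

/-- `f` is inner: it is in `H^∞` and at almost every point `e^{i θ}` of the circle the radial limit of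
`f` exists and has modulus `1`. -/
def IsInner (f : Disk →ᵇ ℂ) : Prop :=
  IsAnalytic f ∧ ∀ᵐ θ : ℝ, ∃ w : ℂ, ‖w‖ = 1 ∧
    Tendsto (fun r : ℝ => f (pt θ r)) (𝓝[<] 1) (𝓝 w)

/-- `h` is an invertible element of `H^∞`. -/
def IsInvertible (h : Disk →ᵇ ℂ) : Prop :=
  IsAnalytic h ∧ ∃ c : ℝ, 0 < c ∧ ∀ z, c ≤ ‖h z‖

/-- The set `𝓘*`, described by the boundary values: the functions `f` in `H^∞` for which there is
`c > 0` such that, for almost every `θ`, `|f (r e^{i θ})| ≥ c` if `r < 1` is close to `1`. -/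
def IStar : Set (Disk →ᵇ ℂ) :=
  {f | IsAnalytic f ∧ ∃ c : ℝ, 0 < c ∧ ∀ᵐ θ : ℝ, ∀ᶠ r : ℝ in 𝓝[<] 1, c ≤ ‖f (pt θ r)‖}

/-- The family `a` of points of the disk is interpolating: every bounded family of values is taken on
it by a function in `H^∞`. -/
def IsInterpolating {ι : Type} (a : ι → Disk) : Prop :=
  ∀ w : ι → ℂ, (∃ M : ℝ, ∀ i, ‖w i‖ ≤ M) → ∃ f : Disk →ᵇ ℂ, IsAnalytic f ∧ ∀ i, f (a i) = w i

/-- The Blaschke factor with zero `a`. -/
noncomputable def blaschkeFactor (a z : ℂ) : ℂ :=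
  if a = 0 then z else (‖a‖ / a) * ((a - z) / (1 - conj a * z))

/-- `b` is an interpolating Blaschke product: a function in `H^∞` which is a constant of modulus `1`
times the product of the Blaschke factors of an interpolating sequence (finite or infinite) of
zeros. -/
def IsInterpolatingBlaschke (b : Disk →ᵇ ℂ) : Prop :=
  IsAnalytic b ∧ ∃ (ι : Type) (_ : Countable ι) (a : ι → Disk), IsInterpolating a ∧
    (Summable fun i => 1 - ‖(a i : ℂ)‖) ∧ ∃ c : ℂ, ‖c‖ = 1 ∧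
      ∀ z : Disk, HasProd (fun i => blaschkeFactor (a i) z) (c * b z)

/-- `b` is a Carleson-Newman Blaschke product: a finite product of interpolating Blaschke
products. -/
def IsCN (b : Disk →ᵇ ℂ) : Prop :=
  ∃ l : List (Disk →ᵇ ℂ), (∀ g ∈ l, IsInterpolatingBlaschke g) ∧ b = l.prod

/-- The set `CN*` of the products of a Carleson-Newman Blaschke product and an invertible
function. -/
def CNStar : Set (Disk →ᵇ ℂ) :=
  {f | ∃ b h, IsCN b ∧ IsInvertible h ∧ f = b * h}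

section Analytic

theorem IsAnalytic.mul {f g : Disk →ᵇ ℂ} (hf : IsAnalytic f) (hg : IsAnalytic g) :
    IsAnalytic (f * g) := by
  obtain ⟨F, hF, hF'⟩ := hf
  obtain ⟨G, hG, hG'⟩ := hg
  exact ⟨fun z => F z * G z, hF.mul hG, fun z => by simp [hF', hG']⟩

theorem IsAnalytic.add {f g : Disk →ᵇ ℂ} (hf : IsAnalytic f) (hg : IsAnalytic g) :
    IsAnalytic (f + g) := by
  obtain ⟨F, hF, hF'⟩ := hf
  obtain ⟨G, hG, hG'⟩ := hg
  exact ⟨fun z => F z + G z, hF.add hG, fun z => by simp [hF', hG']⟩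

theorem isAnalytic_const (c : ℂ) : IsAnalytic (BoundedContinuousFunction.const Disk c) :=
  ⟨fun _ => c, differentiableOn_const c, fun z => by simp⟩

theorem isAnalytic_one : IsAnalytic 1 :=
  ⟨fun _ => 1, differentiableOn_const 1, fun z => by simp⟩

theorem isAnalytic_prod {ι : Type*} (s : Finset ι) (f : ι → Disk →ᵇ ℂ)
    (hf : ∀ i ∈ s, IsAnalytic (f i)) : IsAnalytic (∏ i ∈ s, f i) :=
  Finset.prod_induction f IsAnalytic (fun _ _ => IsAnalytic.mul) isAnalytic_one hf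

theorem prod_app {ι : Type*} (s : Finset ι) (f : ι → Disk →ᵇ ℂ) (z : Disk) :
    (∏ i ∈ s, f i) z = ∏ i ∈ s, f i z := by
  classical
  induction s using Finset.induction_on with
  | empty => simp
  | insert i s hi ih => rw [Finset.prod_insert hi, Finset.prod_insert hi, ← ih]; rfl

end Analytic

section CN

theorem IsCN.analytic {b : Disk →ᵇ ℂ} (hb : IsCN b) : IsAnalytic b := by
  obtain ⟨l, hl, rfl⟩ := hb
  induction l with
  | nil => exact isAnalytic_one
  | cons g l ih =>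
    rw [List.prod_cons]
    exact (hl g List.mem_cons_self).1.mul (ih fun g' hg' => hl g' (List.mem_cons_of_mem _ hg'))

theorem IsCN.mul {b b' : Disk →ᵇ ℂ} (hb : IsCN b) (hb' : IsCN b') : IsCN (b * b') := by
  obtain ⟨l, hl, rfl⟩ := hb
  obtain ⟨l', hl', rfl⟩ := hb'
  refine ⟨l ++ l', fun g hg => ?_, by rw [List.prod_append]⟩
  rcases List.mem_append.1 hg with h | h
  · exact hl g h
  · exact hl' g h

theorem isInvertible_one : IsInvertible 1 := ⟨isAnalytic_one, 1, one_pos, fun z => by simp⟩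

theorem IsInvertible.mul {h h' : Disk →ᵇ ℂ} (H : IsInvertible h) (H' : IsInvertible h') :
    IsInvertible (h * h') := by
  obtain ⟨h1, c, hc, h2⟩ := H
  obtain ⟨h1', c', hc', h2'⟩ := H'
  refine ⟨h1.mul h1', c * c', mul_pos hc hc', fun z => ?_⟩
  change c * c' ≤ ‖h z * h' z‖
  rw [norm_mul]
  exact mul_le_mul (h2 z) (h2' z) hc'.le (norm_nonneg _)

theorem CNStar.analytic {f : Disk →ᵇ ℂ} (hf : f ∈ CNStar) : IsAnalytic f := by
  obtain ⟨b, h, hb, hh, rfl⟩ := hf
  exact hb.analytic.mul hh.1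

theorem CNStar.mul {f g : Disk →ᵇ ℂ} (hf : f ∈ CNStar) (hg : g ∈ CNStar) : f * g ∈ CNStar := by
  obtain ⟨b, h, hb, hh, rfl⟩ := hf
  obtain ⟨b', h', hb', hh', rfl⟩ := hg
  exact ⟨b * b', h * h', hb.mul hb', hh.mul hh', by ring⟩

theorem CNStar.one : (1 : Disk →ᵇ ℂ) ∈ CNStar :=
  ⟨1, 1, ⟨[], by simp, by simp⟩, isInvertible_one, by simp⟩

end CN

section Arg

theorem abs_arg_le {r : ℝ} (hr : r < 1) {z : ℂ} (hz : ‖z - 1‖ ≤ r) :
    z ≠ 0 ∧ |z.arg| ≤ Real.arcsin r := by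
  have hr0 : 0 ≤ r := (norm_nonneg _).trans hz
  have hsq : (z.re - 1) ^ 2 + z.im ^ 2 ≤ r ^ 2 := by
    have h := pow_le_pow_left₀ (norm_nonneg _) hz 2
    rw [← Complex.normSq_eq_norm_sq, Complex.normSq_apply] at h
    simp only [Complex.sub_re, Complex.sub_im, Complex.one_re, Complex.one_im] at h
    nlinarith
  have hre : 0 < z.re := by nlinarith [sq_nonneg z.im, sq_nonneg (z.re - 1)]
  have hz0 : z ≠ 0 := fun h => by rw [h] at hre; simp at hre
  refine ⟨hz0, ?_⟩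
  have hn : 0 < ‖z‖ := norm_pos_iff.2 hz0
  have hn2 : ‖z‖ ^ 2 = z.re ^ 2 + z.im ^ 2 := by
    rw [← Complex.normSq_eq_norm_sq, Complex.normSq_apply]; ring
  have h1 : |z.im / ‖z‖| ≤ r := by
    rw [abs_div, abs_of_pos hn, div_le_iff₀ hn]
    refine abs_le_of_sq_le_sq ?_ (by positivity)
    rw [mul_pow, hn2]
    nlinarith [sq_nonneg (z.re - (1 - r ^ 2)), mul_nonneg (by nlinarith : (0:ℝ) ≤ 1 - r ^ 2)
      (sub_nonneg.2 hsq)]
  rw [Complex.arg_of_re_nonneg hre.le, abs_le]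
  constructor
  · rw [← Real.arcsin_neg]
    exact Real.monotone_arcsin (abs_le.1 h1).1
  · exact Real.monotone_arcsin (abs_le.1 h1).2

variable {k : ℕ}

theorem Q_ne_zero (s : Fin k → ℝ) (w : Fin k → ℂ) (hs1 : ∀ i, s i < 1)
    (hs : ∑ i, Real.arcsin (s i) < Real.pi) (hw' : ∀ i, ‖w i - 1‖ ≤ s i) (t : ℝ) (h0 : 0 ≤ t)
    (h1 : t ≤ 1) : ((1 - t : ℝ) : ℂ) + (t : ℂ) * ∏ i, w i ≠ 0 := by
  intro hQ
  have hw : ∀ i, w i ≠ 0 ∧ |(w i).arg| ≤ Real.arcsin (s i) := fun i => abs_arg_le (hs1 i) (hw' i)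
  set p : ℝ := ∑ i, (w i).arg with hpdef
  have hpabs : |p| < Real.pi :=
    ((Finset.abs_sum_le_sum_abs _ _).trans (Finset.sum_le_sum fun i _ => (hw i).2)).trans_lt hs
  set R : ℝ := ∏ i, ‖w i‖ with hR
  have hRpos : 0 < R := Finset.prod_pos fun i _ => norm_pos_iff.2 (hw i).1
  have hprod : ∏ i, w i = (R : ℂ) * Complex.exp (p * Complex.I) := by
    rw [hR, hpdef, Complex.ofReal_prod, Complex.ofReal_sum, Finset.sum_mul, Complex.exp_sum,
      ← Finset.prod_mul_distrib]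
    exact Finset.prod_congr rfl fun i _ => (Complex.norm_mul_exp_arg_mul_I _).symm
  have hcos : -1 < Real.cos p := by
    rw [← Real.cos_abs, ← Real.cos_pi]
    exact Real.cos_lt_cos_of_nonneg_of_le_pi (abs_nonneg p) le_rfl hpabs
  rw [hprod] at hQ
  have hre := congrArg Complex.re hQ
  have him := congrArg Complex.im hQ
  simp only [Complex.add_re, Complex.add_im, Complex.ofReal_re, Complex.ofReal_im,
    Complex.mul_re, Complex.mul_im, Complex.exp_ofReal_mul_I_re, Complex.exp_ofReal_mul_I_im,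
    Complex.zero_re, Complex.zero_im] at hre him
  have hre' : (1 - t) + t * R * Real.cos p = 0 := by linarith
  have him' : t * R * Real.sin p = 0 := by linarith
  have ht : t ≠ 0 := by
    rintro rfl
    simp at hre'
  have htpos : 0 < t := lt_of_le_of_ne h0 (Ne.symm ht)
  have hsin : Real.sin p = 0 := by
    rcases mul_eq_zero.1 him' with h | h
    · exact absurd h (mul_pos htpos hRpos).ne'
    · exact h
  have hc2 : Real.cos p ^ 2 = 1 := by
    have := Real.sin_sq_add_cos_sq p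
    rw [hsin] at this
    linarith
  have hc1 : Real.cos p = 1 := by
    have h2 : (Real.cos p - 1) * (Real.cos p + 1) = 0 := by linear_combination hc2
    rcases mul_eq_zero.1 h2 with h | h <;> linarith
  rw [hc1] at hre'
  have := mul_pos htpos hRpos
  linarith

theorem Q_lower (s : Fin k → ℝ) (hs0 : ∀ i, 0 ≤ s i) (hs1 : ∀ i, s i < 1)
    (hs : ∑ i, Real.arcsin (s i) < Real.pi) :
    ∃ c : ℝ, 0 < c ∧ ∀ (w : Fin k → ℂ), (∀ i, ‖w i - 1‖ ≤ s i) → ∀ t : ℝ, 0 ≤ t → t ≤ 1 →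
      c ≤ ‖((1 - t : ℝ) : ℂ) + (t : ℂ) * ∏ i, w i‖ := by
  have hK : IsCompact ((Set.Icc (0:ℝ) 1) ×ˢ (Set.univ.pi fun i : Fin k =>
      Metric.closedBall (1:ℂ) (s i))) :=
    isCompact_Icc.prod (isCompact_univ_pi fun _ => isCompact_closedBall _ _)
  have hne : ((Set.Icc (0:ℝ) 1) ×ˢ (Set.univ.pi fun i : Fin k =>
      Metric.closedBall (1:ℂ) (s i))).Nonempty :=
    ⟨(0, fun _ => 1), ⟨Set.left_mem_Icc.2 zero_le_one, fun i _ =>
      Metric.mem_closedBall_self (hs0 i)⟩⟩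
  have hcont : Continuous fun p : ℝ × (Fin k → ℂ) =>
      ‖((1 - p.1 : ℝ) : ℂ) + (p.1 : ℂ) * ∏ i, p.2 i‖ := by
    fun_prop
  obtain ⟨p, hp, hmin⟩ := hK.exists_isMinOn hne hcont.continuousOn
  have hp2 : ∀ i, ‖p.2 i - 1‖ ≤ s i := fun i => by
    simpa [dist_eq_norm] using hp.2 i (Set.mem_univ i)
  refine ⟨_, norm_pos_iff.2 (Q_ne_zero s p.2 hs1 hs hp2 p.1 hp.1.1 hp.1.2), ?_⟩
  intro w hw t h0 h1
  exact hmin (a := (t, w)) ⟨⟨h0, h1⟩, fun i _ => by
    rw [Metric.mem_closedBall, dist_eq_norm]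
    exact hw i⟩

/-- A little room in the condition on the angles. -/
theorem exists_room (s : Fin k → ℝ) (hs1 : ∀ i, s i < 1)
    (hs : ∑ i, Real.arcsin (s i) < Real.pi) :
    ∃ s' : Fin k → ℝ, (∀ i, s i < s' i) ∧ (∀ i, s' i < 1) ∧
      ∑ i, Real.arcsin (s' i) < Real.pi := by
  have hc : Continuous fun x : ℝ => ∑ i, Real.arcsin (s i + x) :=
    continuous_finsetSum _ fun i _ => Real.continuous_arcsin.comp (by fun_prop)
  have h1 : ∀ᶠ x : ℝ in 𝓝[>] 0, ∑ i, Real.arcsin (s i + x) < Real.pi := by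
    refine (hc.tendsto 0).mono_left nhdsWithin_le_nhds |>.eventually_lt_const ?_
    simpa using hs
  have h2 : ∀ᶠ x : ℝ in 𝓝[>] 0, ∀ i, s i + x < 1 := by
    rw [eventually_all]
    intro i
    have h3 : Tendsto (fun x : ℝ => s i + x) (𝓝[>] 0) (𝓝 (s i + 0)) :=
      ((continuous_const.add continuous_id).tendsto 0).mono_left nhdsWithin_le_nhds
    exact h3.eventually_lt_const (by simpa using hs1 i)
  obtain ⟨x, ⟨hx1, hx2⟩, hx0⟩ := ((h1.and h2).and self_mem_nhdsWithin).exists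
  exact ⟨fun i => s i + x, fun i => by
    have : (0:ℝ) < x := hx0
    show s i < s i + x
    linarith, hx2, hx1⟩

end Arg

section Main

variable {k : ℕ}

/-- The segment: `(1 - t) ∏ u_i + t ∏ f_i`. -/
noncomputable def P (u f : Fin k → Disk →ᵇ ℂ) (t : ℝ) : Disk →ᵇ ℂ :=
  BoundedContinuousFunction.const Disk ((1 - t : ℝ) : ℂ) * ∏ i, u i +
    BoundedContinuousFunction.const Disk (t : ℂ) * ∏ i, f i

theorem P_app (u f : Fin k → Disk →ᵇ ℂ) (t : ℝ) (z : Disk) :
    P u f t z = ((1 - t : ℝ) : ℂ) * ∏ i, u i z + (t : ℂ) * ∏ i, f i z := by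
  unfold P
  simp only [BoundedContinuousFunction.coe_add, BoundedContinuousFunction.coe_mul, Pi.add_apply,
    Pi.mul_apply, BoundedContinuousFunction.const_apply, prod_app]

theorem mem_IStar (u f : Fin k → Disk →ᵇ ℂ) (hu : ∀ i, IsInner (u i))
    (hf : ∀ i, IsAnalytic (f i)) (hs1 : ∀ i, ‖u i - f i‖ < 1)
    (hs : ∑ i, Real.arcsin ‖u i - f i‖ < Real.pi) (t : ℝ) (h0 : 0 ≤ t) (h1 : t ≤ 1) :
    P u f t ∈ IStar := by
  refine ⟨((isAnalytic_const _).mul (isAnalytic_prod _ _ fun i _ => (hu i).1)).add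
    ((isAnalytic_const _).mul (isAnalytic_prod _ _ fun i _ => hf i)), ?_⟩
  obtain ⟨s, hs', hs1', hsum⟩ := exists_room (fun i => ‖u i - f i‖) hs1 hs
  have hs0 : ∀ i, 0 ≤ s i := fun i => (norm_nonneg _).trans (hs' i).le
  obtain ⟨c, hc, hlow⟩ := Q_lower s hs0 hs1' hsum
  refine ⟨c / 2, half_pos hc, ?_⟩
  have hall : ∀ᵐ θ : ℝ, ∀ i, ∃ w : ℂ, ‖w‖ = 1 ∧
      Tendsto (fun r : ℝ => u i (pt θ r)) (𝓝[<] 1) (𝓝 w) :=
    MeasureTheory.ae_all_iff.2 fun i => (hu i).2
  filter_upwards [hall] with θ hθ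
  choose ω hω hlim using hθ
  have hn : ∀ i, Tendsto (fun r : ℝ => ‖u i (pt θ r)‖) (𝓝[<] 1) (𝓝 1) := fun i => by
    have h := (hlim i).norm
    rw [hω i] at h
    exact h
  have h2 : ∀ᶠ r : ℝ in 𝓝[<] 1, ∀ i, ‖u i - f i‖ < s i * ‖u i (pt θ r)‖ := by
    rw [eventually_all]
    intro i
    have h3 : Tendsto (fun r : ℝ => s i * ‖u i (pt θ r)‖) (𝓝[<] 1) (𝓝 (s i * 1)) :=
      (hn i).const_mul _
    exact h3.eventually_const_lt (by rw [mul_one]; exact hs' i)
  have h4 : ∀ᶠ r : ℝ in 𝓝[<] 1, (1 / 2 : ℝ) < ∏ i, ‖u i (pt θ r)‖ := by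
    have h5 : Tendsto (fun r : ℝ => ∏ i, ‖u i (pt θ r)‖) (𝓝[<] 1) (𝓝 (∏ _i : Fin k, (1:ℝ))) :=
      tendsto_finsetProd _ fun i _ => hn i
    rw [Finset.prod_const_one] at h5
    exact h5.eventually_const_lt (by norm_num)
  filter_upwards [h2, h4] with r hr hr'
  have hpos : ∀ i, 0 < ‖u i (pt θ r)‖ := fun i => by
    by_contra h
    have h6 : ‖u i (pt θ r)‖ = 0 := le_antisymm (not_lt.1 h) (norm_nonneg _)
    have h7 := hr i
    rw [h6, mul_zero] at h7
    exact absurd h7 (not_lt.2 (norm_nonneg _))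
  have hne : ∀ i, u i (pt θ r) ≠ 0 := fun i => norm_pos_iff.1 (hpos i)
  have hfac : P u f t (pt θ r) = (∏ i, u i (pt θ r)) *
      (((1 - t : ℝ) : ℂ) + (t : ℂ) * ∏ i, (f i (pt θ r) / u i (pt θ r))) := by
    rw [P_app, Finset.prod_div_distrib]
    have h8 : (∏ i, u i (pt θ r)) ≠ 0 := Finset.prod_ne_zero_iff.2 fun i _ => hne i
    field_simp
  rw [hfac, norm_mul, norm_prod]
  have h9 := hlow (fun i => f i (pt θ r) / u i (pt θ r)) (fun i => by
    rw [div_sub_one (hne i), norm_div, div_le_iff₀ (hpos i), norm_sub_rev]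
    exact ((u i - f i).norm_coe_le_norm (pt θ r)).trans (hr i).le) t h0 h1
  calc c / 2 = (1 / 2) * c := by ring
    _ ≤ _ := mul_le_mul hr'.le h9 hc.le (by positivity)

theorem isInner_prod (u : Fin k → Disk →ᵇ ℂ) (hu : ∀ i, IsInner (u i)) :
    IsInner (∏ i, u i) := by
  refine ⟨isAnalytic_prod _ _ fun i _ => (hu i).1, ?_⟩
  filter_upwards [MeasureTheory.ae_all_iff.2 fun i => (hu i).2] with θ hθ
  choose ω hω hlim using hθ
  refine ⟨∏ i, ω i, by rw [norm_prod, Finset.prod_congr rfl fun i _ => hω i,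
    Finset.prod_const_one], ?_⟩
  simp_rw [prod_app]
  exact tendsto_finsetProd _ fun i _ => hlim i

/-- Let `u_1, …, u_k` be inner functions and `f_1, …, f_k` functions in `CN*` such that
`‖u_i - f_i‖ < 1` and `∑ arcsin ‖u_i - f_i‖ < π` (no condition if `k ≤ 2`). Then the segment from the
inner function `u = ∏ u_i` to the function `f = ∏ f_i` of `CN*` lies in the connected component of
`𝓘*` which contains `u`. -/
theorem result {k : ℕ} (u f : Fin k → Disk →ᵇ ℂ) (hu : ∀ i, IsInner (u i))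
    (hf : ∀ i, f i ∈ CNStar) (h1 : ∀ i, ‖u i - f i‖ < 1)
    (hs : ∑ i, Real.arcsin ‖u i - f i‖ < Real.pi) :
    IsInner (∏ i, u i) ∧ ∏ i, f i ∈ CNStar ∧ ∀ t ∈ Set.Icc (0 : ℝ) 1,
      (∏ i, u i) + t • (∏ i, f i - ∏ i, u i) ∈ connectedComponentIn IStar (∏ i, u i) := by
  have hmem := mem_IStar u f hu (fun i => CNStar.analytic (hf i)) h1 hs
  have hP : ∀ t : ℝ, P u f t = (∏ i, u i) + t • (∏ i, f i - ∏ i, u i) := fun t => by
    ext z
    simp only [BoundedContinuousFunction.coe_add, BoundedContinuousFunction.coe_smul,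
      BoundedContinuousFunction.coe_sub, Pi.add_apply, Pi.sub_apply, P_app, prod_app,
      Complex.real_smul]
    push_cast
    ring
  refine ⟨isInner_prod u hu, Finset.prod_induction f (· ∈ CNStar) (fun _ _ => CNStar.mul)
    CNStar.one fun i _ => hf i, fun t ht => ?_⟩
  have hseg : IsPreconnected ((fun t : ℝ => P u f t) '' Set.Icc 0 1) := by
    refine isPreconnected_Icc.image _ (Continuous.continuousOn ?_)
    have : (fun t : ℝ => P u f t) = fun t => (∏ i, u i) + t • (∏ i, f i - ∏ i, u i) := funext hP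
    rw [this]
    fun_prop
  have h0 : P u f 0 = ∏ i, u i := by rw [hP 0, zero_smul, add_zero]
  rw [← hP t]
  refine hseg.subset_connectedComponentIn ⟨0, Set.left_mem_Icc.2 zero_le_one, h0⟩ ?_ ⟨t, ht, rfl⟩
  rintro _ ⟨s, hs', rfl⟩
  exact hmem s hs'.1 hs'.2

end Main

end Pool.Agent.Results.MP_9f8bec_an.ProductSegments
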